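import Pool.Agent.Helper74.DI.St

/-! Project DI of helper74 (MP_26f0da_lc), module FWD. -/

set_option autoImplicit false

namespace Pool.Agent.Helper58.DI

open Pool.Agent.Helper74 Pool.Agent.Helper74.DI
open Pool.Agent.Helper74.NM (NC)
open Pool.Agent.Helper74.WB (OP QW rl enc iv ap rd Red)

theorem hFWD : StFWD := by
  intro G R k h1 h2 h3 w hq ho
  induction ho with
  | nil => exact NC.nil
  | skip x w _ ih =>
    have hx : true = x.2 := hq (x, true) (by simp)
    obtain ⟨i, s⟩ := x
    subst hx
    rw [List.flatMap_cons]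
    exact nc_append _ _ (h1 i) (ih fun a ha => hq a (by simp [ha]))
  | wrap x o o' u v _ _ ihu ihv =>
    have hx : x.2 = o := (hq (x, o) (by simp)).symm
    have hy : (iv x).2 = o' := (hq (iv x, o') (by simp)).symm
    have hu : NC R (u.flatMap k) := ihu fun a ha => hq a (by simp [ha])
    have hv : NC R (v.flatMap k) := ihv fun a ha => hq a (by simp [ha])
    obtain ⟨i, s⟩ := x
    subst hx
    subst hy
    have e : (((((i, s) : Bool × Bool), s) :: (u ++ (iv (i, s), (iv (i, s)).2) :: v)).flatMap k) =
        (k ((i, s), s) ++ (u.flatMap k ++ k ((i, !s), !s))) ++ v.flatMap k := by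
      simp [List.flatMap_cons, List.flatMap_append, iv]
    rw [e]
    refine nc_append _ _ ?_ hv
    cases s with
    | true => exact h2 i _ hu
    | false => exact h3 i _ hu

end Pool.Agent.Helper58.DI
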